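import Pool.Agent.TH707.EA.Main
import Pool.Agent.W886.AM.Fin

/-!
# How many strings of an oracle have to be changed to separate `MA` and `AM`?

An adversary who knows the oracle `O` changes, for all large `n`, at most `g n` of the strings
of length at most `n`; the result is the oracle `A` (`Close g O A`). Let `g n ≥ 2 n` for large `n`.

* If `g` is not bounded by a polynomial, then every oracle `O` can be changed such that, relative to
  `A`, some language in `AM` is not in `MA`.
* Otherwise there is an oracle `O` such that `NP = MA = AM` relative to all these `A`; almost every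
  oracle has this property.

(Polynomially bounded means here that for some `c` and all large `n` there is `m ≥ n` with
`g m ≤ n ^ c`. If `g` is nondecreasing, this says that `g n ≤ n ^ c` for some `c` and all large `n`;
in general it is the right condition, since the number of changed strings of length at most `n` is
nondecreasing in `n`.)

Proof of the first part. First a marker is removed for each length (one string for each length).
Then stages: for a Merlin-Arthur machine `M` choose a large `n` and let `2 ^ r` be a polynomial in `n`
larger than the lengths of the messages of Merlin. A key of `3 n` bits is written into `O` which is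
not a block of `O` for any challenge `w` of length `r` and any answer `u` of length `n`. For a table
that gives an answer `s w` to each challenge, the key is written into the blocks for `w` and `s w`.
The language: all challenges have answers. If the machine accepts with some message for the full
table, then, for a suitable random table, this message knows at most a third of the answers and the
machine still accepts if all other answers are removed; then the language says no, and Arthur sees
that by a random challenge.
-/

set_option autoImplicit false

namespace Pool.Agent.Results.MP_ff3ed7_lc.ChangesOfEveryOracle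

open Pool.Agent.NPC Pool.Agent.H620R2.Gauge Pool.Agent.W886.AM Pool.Agent.W895.MA
open Pool.Agent.H628R3.RO (randomOracle)
open Pool.Agent.W900.CH (Close)
open MeasureTheory Filter

theorem result (g : ℕ → ℝ) (hg : ∀ᶠ n : ℕ in atTop, 2 * (n : ℝ) ≤ g n) :
    ((∀ O : Oracle, ∃ A : Oracle, Close g O A ∧ ∃ L, IsAM A L ∧ ¬ IsMA A L) ↔
      ¬ ∃ c : ℕ, ∀ᶠ n : ℕ in atTop, ∃ m ≥ n, g m ≤ (n : ℝ) ^ c) ∧
    ((∃ c : ℕ, ∀ᶠ n : ℕ in atTop, ∃ m ≥ n, g m ≤ (n : ℝ) ^ c) →
      ∃ O : Oracle, ∀ A : Oracle, Close g O A →
        (∀ L, IsAM A L ↔ IsNP A L) ∧ ∀ L, IsMA A L ↔ IsNP A L) := by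
  have h1 : (∃ c : ℕ, ∀ᶠ n : ℕ in atTop, ∃ m ≥ n, g m ≤ (n : ℝ) ^ c) →
      ∃ O : Oracle, ∀ A : Oracle, Close g O A →
        (∀ L, IsAM A L ↔ IsNP A L) ∧ ∀ L, IsMA A L ↔ IsNP A L := fun h => (few h).exists
  refine ⟨⟨fun h h2 => ?_, fun h O => Pool.Agent.TH707.EA.many_every hg h O⟩, h1⟩
  obtain ⟨O, hO⟩ := h1 h2
  obtain ⟨A, hA, L, h3, h4⟩ := h O
  exact h4 (((hO A hA).2 L).2 (((hO A hA).1 L).1 h3))

end Pool.Agent.Results.MP_ff3ed7_lc.ChangesOfEveryOracle
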