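import Pool.Agent.TH706.SD.GamesFinal

/-!
# Arthur-Merlin games against Merlin-Arthur games for programs with linearly many queries and an
unlimited stack

The model is the one of time-space lower bounds, extended by a stack: programs with nodes which
query one of `n` Boolean variables (any order, repetitions allowed), push or pop a symbol of any
alphabet, or output a bit (`Pool.Agent.W896.PD.PP`); `2 ^ s` nodes stand for space `s`, the number
of queries for the time, and the program is chosen by the messages of the players. The height of
the stack and the number of steps are not bounded. (With a stack, polynomial time is as good as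
logarithmic space: these are the auxiliary pushdown machines of Cook.)

We give functions with Arthur-Merlin games of perfect completeness in which the messages are short,
the error is exponentially small in their length (less than `J ^ (-1/8)`, `J` being the number of
the answers of Merlin), and the input is then read only once, in a fixed order, in space
`n ^ (1 / e)` and without a stack. They have no Merlin-Arthur games with `k n` queries, space
`n / β n` and an unlimited stack, whatever the length `w ≤ n / β n` of the message of Merlin, if the
error is `2 ^ (- w / c) / 4`, however large the constants `c` and `k` are; not even games in which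
Arthur accepts with tiny probabilities (as in the class SBP) are possible.

The starting result `LinearTimeGames` is the case without a stack; its functions (`2 ^ m * m` random
quadratic forms are read as the table of a map from a plane over a finite field to itself; is it
true that its fibres are not the lines of one direction?) and its one-sided comparison of
permutations with line maps are used.  New is that conjunctions of a constant number of programs
with a stack are treated: the computation tree of a program with a stack is cut canonically (where
`⌊size / t⌋` changes), which partitions the inputs into `2 ^ (O(S r))` sets of inputs with `O(r)`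
blocks of queries (`Pool.Agent.TH706.CD`), and the common refinement for several programs is
compared, pattern by pattern, with the one-sided covering of `Pool.Agent.H554R2.Rnd`
(`Pool.Agent.TH706.SD.Det`).
-/

set_option autoImplicit false

namespace Pool.Agent.Results.MP_ff3ed7_lc.GamesStack

open Pool.Agent.H554R2.Sem Pool.Agent.H554R2.Coin
open Pool.Agent.W896.PD (PP)

/-- The program `P` with a stack accepts the input `x` after at most `τ` queries (and any number of
pushes and pops). -/
def Acc {n : ℕ} (P : PP (Fin n) Bool) (τ : ℕ) (x : Pt n) : Prop :=
  ∃ l, P.Comp x l true ∧ l.length ≤ τ

/-- The function `f` has an Arthur-Merlin game of the following kind.  Arthur sends one of `R`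
messages `r`, chosen at random, Merlin answers by one of `J` messages `j`, where `R ≤ J ≤ D`, and
then the program `V r j`, which has no stack, is run.  It has at most `2 ^ s` nodes, where
`s ^ e ≤ D n`, and on all inputs it reads the same variables in the same order, each of them at most
once.  If `f x = true` then Merlin has good answers to all the messages `r`; if `f x = false` then
the part of the messages `r` to which he has a good answer is at most `2 ^ (-q)` and at most
`J ^ (-1/8)`. -/
def OnePassAM (n e q D : ℕ) (f : Pt n → Bool) : Prop :=
  ∃ (s R J : ℕ) (V : Fin R → Fin J → BP (Fin n) Bool),
    s ^ e ≤ D * n ∧ 1 ≤ R ∧ R ≤ J ∧ J ≤ D ∧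
    (∀ r j, Fintype.card (V r j).State ≤ 2 ^ s ∧
      ∃ l : List (Fin n), l.Nodup ∧ ∀ x : Pt n, ∃ b, (V r j).Comp x l b) ∧
    (∀ x, f x = true → ∀ r, ∃ j, ∃ l, (V r j).Comp x l true) ∧
    ∀ x, f x = false → 2 ^ q * Nat.card {r // ∃ j, ∃ l, (V r j).Comp x l true} ≤ R ∧
      Nat.card {r // ∃ j, ∃ l, (V r j).Comp x l true} ^ 8 * J ≤ R ^ 8

/-- The function `f` has no Merlin-Arthur game of the following kind.  Merlin sends one of `W`
messages `y`, where `W ≤ 2 ^ (n / D)`, and then a random program `P y ω` with a stack and at most
`2 ^ (n / D)` nodes is run until at most `τ ≤ k * n` variables have been queried (`ω` is uniform in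
`Fin T`).  With `p = b / T` for some `b ≥ 1`, `p ≥ 2 ^ (- n / D)`: if `f x = true` then there is a
message for which the probability to accept is at least `2 p`, and if `f x = false` then the
probability to accept is at most `W ^ (-1/c) p` for all messages. -/
def NoMA (n k c D : ℕ) (f : Pt n → Bool) : Prop :=
  ∀ τ ≤ k * n, ∀ W T b : ℕ, 1 ≤ b → W ≤ 2 ^ (n / D) → T ≤ b * 2 ^ (n / D) →
    ∀ P : Fin W → Fin T → PP (Fin n) Bool, (∀ y ω, Fintype.card (P y ω).State ≤ 2 ^ (n / D)) →
    ∃ x, (f x = true ∧ ∀ y, Nat.card {ω // Acc (P y ω) τ x} < 2 * b) ∨
      (f x = false ∧ ∃ y, b ^ c < W * Nat.card {ω // Acc (P y ω) τ x} ^ c)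

/-- Let `β n` tend to infinity, as slowly as one likes.  There is a family of Boolean functions
`F n` such that for all constants `k`, `e`, `c ≥ 1`, `q` and all large `n` the function `F n` has
a one-pass Arthur-Merlin game without a stack, in space `(β n * n) ^ (1 / e)` and with at most
`β n` messages, but no Merlin-Arthur game with an unlimited stack, `k n` queries and space
`n / β n`. -/
theorem result (β : ℕ → ℕ) (hβ : Filter.Tendsto β Filter.atTop Filter.atTop) :
    ∃ F : ∀ n, Pt n → Bool, ∀ k e c q : ℕ, 1 ≤ c → ∃ N, ∀ n ≥ N,
      OnePassAM n e q (β n) (F n) ∧ NoMA n k c (β n) (F n) :=
  Pool.Agent.TH706.SD.family β hβ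

end Pool.Agent.Results.MP_ff3ed7_lc.GamesStack
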