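import Pool.Agent.TH707.AM.Fin

/-!
# How many oracles separate `MA` and `AM`?

The size of a set of oracles is measured by gauges `f` (Hausdorff measures of arbitrary dimension
functions): `X` is a null set for `f` if it can be covered by cylinders, given by finite sequences
`σ` of bits, such that the sum of `2 ^ (f |σ| - |σ|)` is as small as one likes. For `f = 0` these
are the sets of measure zero.

The oracles `A` with `AM^A ⊄ MA^A` are a null set for `f` if and only if for some `C` and all large
`N` there is `N' ≥ N` with `f N' ≤ (log N) ^ C`. The same holds for every set of oracles between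
this set and the set of those `A` for which `AM^A` or `MA^A` is not contained in `NP^A`.
-/

set_option autoImplicit false

namespace Pool.Agent.Results.MP_ff3ed7_lc.GaugeThreshold

open Pool.Agent.NPC Pool.Agent.H620R2.Gauge Pool.Agent.W895.MA Pool.Agent.TH707.AM

theorem result (f : ℕ → ℝ) :
    (Null f {A : Oracle | ∃ L, IsAM A L ∧ ¬ IsMA A L} ↔
      ∃ C : ℕ, ∀ᶠ N : ℕ in Filter.atTop, ∃ N' ≥ N, f N' ≤ (Real.logb 2 N) ^ C) ∧
    ∀ X : Set Oracle,
      (∀ A : Oracle, (∃ L, IsAM A L ∧ ¬ IsMA A L) → A ∈ X) →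
      (∀ A ∈ X, ∃ L, (IsAM A L ∨ IsMA A L) ∧ ¬ IsNP A L) →
      (Null f X ↔
        ∃ C : ℕ, ∀ᶠ N : ℕ in Filter.atTop, ∃ N' ≥ N, f N' ≤ (Real.logb 2 N) ^ C) :=
  ⟨gauge_am f, gauge_am_between f⟩

end Pool.Agent.Results.MP_ff3ed7_lc.GaugeThreshold
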